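import Pool.Agent.Lib.MP_f6c41f_nt.X7

/-!
# MP_f6c41f_nt: sharp bound for the local energy, and the torus model as the equality case

`IdentityOf f h` is the identity `I(h)` of the problem for a sequence `f` of signs in place of the
Liouville function, `energy f a B N` the mean over `n < N` of the squares of the local correlations
`(1/B) ∑_{b<B} f(n+b) f(n+b+a)`, and `localU2 f A B N` its average over `1 ≤ a ≤ A`.
-/

set_option autoImplicit false

open Finset Filter Topology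

namespace Pool.Agent.Results.MP_f6c41f_nt.LocalU2Rigidity

open Pool.Agent.Lib.MP_f6c41f_nt

theorem result (f : ℤ → ℝ) (hf : ∀ n, f n = 1 ∨ f n = -1)
    (h2 : ∀ a : ℕ, 0 < a → IdentityOf f ![0, (a : ℤ)]) :
    (∀ a : ℕ, 0 < a → ∀ δ > (0 : ℝ), ∃ B₀ : ℕ, ∀ B ≥ B₀, ∀ᶠ N in atTop,
      energy (fun n : ℕ => f (n : ℤ)) a B N ≤ 1 / 3 + δ) ∧
    ((∀ (l : ℕ) (h : Fin l → ℤ), IdentityOf f h) ↔
      ∀ δ > (0 : ℝ), ∃ᶠ A : ℕ in atTop, ∃ B₀ : ℕ, ∀ B ≥ B₀, ∀ᶠ N in atTop,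
        1 / 3 - δ ≤ localU2 (fun n : ℕ => f (n : ℤ)) A B N) :=
  ⟨fun a ha δ hδ => X7_bound hf h2 a ha δ hδ, X7_rigid hf h2⟩

end Pool.Agent.Results.MP_f6c41f_nt.LocalU2Rigidity
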