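import Pool.Agent.Lib.TU2.NMom

/-!
MP_f6c41f_nt: moments of the local correlations of the Liouville function, in natural averages and averaged over the lag, unconditional:
at most `1/2`, `1/3` (the values of the torus model) and `4 / (3 (r + 1))` for `r = 1`, `r = 2` and `r ≥ 3`.
-/

set_option autoImplicit false

open Finset

namespace Pool.Agent.Results.MP_f6c41f_nt.NaturalMoments

open Pool.Agent.Lib.MP_f6c41f_nt
open Pool.Agent.Lib.TU2 (kap)

theorem result (q r : ℕ) (hq : 0 < q) (hr : 0 < r) (ε : ℝ) (hε : 0 < ε) :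
    ∃ A0 : ℕ, ∀ A : ℕ, A0 ≤ A → ∃ B0 : ℕ, ∀ B : ℕ, B0 ≤ B → ∃ N0 : ℕ, ∀ N : ℕ, N0 ≤ N →
      (∑ a ∈ Icc 1 A, mean (fun n => |lcor (fun m : ℕ => lam (m : ℤ)) (q * a) B n| ^ r) N) / A ≤ kap r + ε :=
  Pool.Agent.Lib.TU2.nmom q r hq hr ε hε

end Pool.Agent.Results.MP_f6c41f_nt.NaturalMoments
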