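import Pool.Agent.Lib.MP_f6c41f_nt.RP.FinalP

/-!
# MP_f6c41f_nt: the torus model does not hold with a polylogarithmic rate on parallelograms

For every completely multiplicative `f : ℕ → {1, -1}` (for instance the Liouville function) and every
large `X`, some four-point correlation `f n f (n + a) f (n + b) f (n + a + b)`, `a, b ≤ (log N)^100`,
`N ∈ [X^(1/3), X]`, differs from its value in the torus model by more than `(log N)^(-200)`.
-/

set_option autoImplicit false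

open Finset

namespace Pool.Agent.Results.MP_f6c41f_nt.NoPolylogRate

open Pool.Agent.Lib.MP_f6c41f_nt Pool.Agent.Lib.MP_f6c41f_nt.RP

theorem result :
    ∃ X₀ : ℝ, ∀ X : ℝ, X₀ ≤ X → ∀ f : ℕ → ℝ, (∀ n, f n = 1 ∨ f n = -1) →
      (∀ m n : ℕ, 0 < m → 0 < n → f (m * n) = f m * f n) →
      ∃ N : ℕ, X ^ (1 / 3 : ℝ) ≤ N ∧ (N : ℝ) ≤ X ∧ ∃ a b : ℕ,
        1 ≤ a ∧ (a : ℝ) ≤ Real.log N ^ 100 ∧ 1 ≤ b ∧ (b : ℝ) ≤ Real.log N ^ 100 ∧
        1 / Real.log N ^ 200 <
          |(1 / (N : ℝ)) * ∑ n ∈ Icc 1 N, f n * f (n + a) * f (n + b) * f (n + a + b) -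
            ∫ t in (0:ℝ)..1, ∫ s in (0:ℝ)..1,
              phi t * phi (t + a * s) * phi (t + b * s) * phi (t + (a + b) * s)| :=
  finalP

end Pool.Agent.Results.MP_f6c41f_nt.NoPolylogRate
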