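import Pool.Agent.Lib.MP_f6c41f_nt.X7

/-!
# MP_f6c41f_nt: the torus model is determined by parallelogram correlations

`Identity h` is the identity `I(h)` of the problem (for the Liouville function), `IdentityOf f h` the
same identity for a sequence `f` of signs in place of the Liouville function.
-/

set_option autoImplicit false

open Finset Filter Topology

namespace Pool.Agent.Results.MP_f6c41f_nt.ParallelogramCriterion

open Pool.Agent.Lib.MP_f6c41f_nt

theorem result :
    ((∀ (l : ℕ) (h : Fin l → ℤ), Identity h) ↔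
      ∀ a b : ℕ, 0 < a → 0 < b → Identity ![0, (a : ℤ), b, a + b]) ∧
    ∀ f : ℤ → ℝ, (∀ n, f n = 1 ∨ f n = -1) →
      ((∀ (l : ℕ) (h : Fin l → ℤ), IdentityOf f h) ↔
        (∀ a : ℕ, Odd a → IdentityOf f ![0, (a : ℤ)]) ∧
          ∀ a b : ℕ, 0 < a → 0 < b → IdentityOf f ![0, (a : ℤ), b, a + b]) :=
  ⟨X7_lam, fun _ hf => X7_four hf⟩

end Pool.Agent.Results.MP_f6c41f_nt.ParallelogramCriterion
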